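import Pool.Agent.Q326.CT.Saw

/-!
# The sample size of the sample-based tester for planar convexity is of order `n ^ (2 / 3)`

Definitions: `General` (general position), `ConvexPos` (convex position) in
`Pool.Agent.Q326.CT.Geo`, `Far` and `acc` (the probability of acceptance) in
`Pool.Agent.Q326.CT.Upper`.

Upper bound: if `S` is `1/4`-far from convex then there are `n / 16` disjoint quadruples
`a, b, c, d` with `d` in the triangle `a b c`. For any further point `e` the point `d` is in the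
convex hull of `e` and two of the points `a, b, c`. So for every `e` there are `n / 16 - 1`
disjoint triples none of which can be in a convex set together with `e`. Fix the point `e` of the
sample and apply Chebyshev's inequality to the number of these triples in the sample.

Lower bound: disjoint triples of consecutive points near a parabola, where the middle point is just
above the chord of the two others; a set of such points is convex if it contains no full triple.
-/

set_option autoImplicit false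

namespace Pool.Agent.Results.MP_e76d88_lc.TwoThirds

open Finset Pool.Agent.Q326.CT

/-- `s_p(n)`: the least sample size `s` such that for all configurations `S` of `n` points in
general position which are `1/4`-far from convex the tester with sample size `s` accepts `S` with
probability at most `p`. -/
noncomputable def sampleSize (p : ℝ) (n : ℕ) : ℕ :=
  sInf {s | s ≤ n ∧ ∀ S : Finset (ℝ × ℝ), General S → S.card = n → Far (1 / 4) S → acc S s ≤ p}

theorem rho_three (v k : ℕ) (hv : 3 ≤ v) (hk : 2 ≤ k) (hkv : k ≤ v) :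
    (((k : ℝ) - 2) / v) ^ 3 ≤ rho v k 3 ∧ rho v k 3 ≤ ((k : ℝ) / v) ^ 3 := by
  have h0 : (0 : ℝ) < v.descFactorial 3 := by exact_mod_cast Nat.descFactorial_pos.2 hv
  have hv0 : (3 : ℝ) ≤ v := by exact_mod_cast hv
  have hk0 : (2 : ℝ) ≤ k := by exact_mod_cast hk
  have hkv0 : (k : ℝ) ≤ v := by exact_mod_cast hkv
  have e : ∀ n : ℕ, 2 ≤ n → (n.descFactorial 3 : ℝ) = ((n : ℝ) - 2) * ((n - 1) * n) := by
    intro n hn
    have : n.descFactorial 3 = (n - 2) * ((n - 1) * n) := by simp [Nat.descFactorial_succ]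
    rw [this]
    push_cast [Nat.cast_sub hn, Nat.cast_sub (show 1 ≤ n by omega)]
    ring
  rw [rho, div_pow, div_pow]
  constructor
  · rw [div_le_div_iff₀ (by positivity) h0, e v (by omega), e k hk]
    have h1 : ((v : ℝ) - 2) * ((v - 1) * v) ≤ v ^ 3 := by nlinarith
    have h2 : ((k : ℝ) - 2) ^ 3 ≤ (k - 2) * ((k - 1) * k) := by
      have : ((k : ℝ) - 2) * (k - 2) ≤ (k - 1) * k := by nlinarith
      nlinarith [mul_le_mul_of_nonneg_left this (show (0 : ℝ) ≤ k - 2 by linarith)]
    have h3 : (0 : ℝ) ≤ ((k : ℝ) - 2) ^ 3 := pow_nonneg (by linarith) 3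
    have h4 : (0 : ℝ) ≤ (v : ℝ) ^ 3 := by positivity
    nlinarith [mul_le_mul_of_nonneg_left h1 h3, mul_le_mul_of_nonneg_right h2 h4]
  · rw [div_le_div_iff₀ h0 (by positivity), e v (by omega), e k hk]
    have h1 : ((k : ℝ) - 2) * v ≤ k * (v - 2) := by nlinarith
    have h2 : ((k : ℝ) - 1) * v ≤ k * (v - 1) := by nlinarith
    have h3 : 0 ≤ ((k : ℝ) - 2) * v := mul_nonneg (by linarith) (by linarith)
    have h4 : 0 ≤ ((k : ℝ) - 1) * v := mul_nonneg (by linarith) (by linarith)
    have h5 := mul_le_mul h1 h2 h4 (h3.trans h1)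
    have h6 : 0 ≤ (k : ℝ) * v := by positivity
    calc ((k : ℝ) - 2) * ((k - 1) * k) * v ^ 3 = ((k - 2) * v * ((k - 1) * v)) * (k * v) := by ring
      _ ≤ (k * (v - 2) * (k * (v - 1))) * (k * v) := mul_le_mul_of_nonneg_right h5 h6
      _ = k ^ 3 * ((v - 2) * ((v - 1) * v)) := by ring

/-- **The sample size is of order `n ^ (2 / 3)`.** -/
theorem result (p : ℝ) (hp : 0 < p) (hp1 : p < 1) :
    ∃ c C : ℝ, 0 < c ∧ ∃ n₀ : ℕ, ∀ n ≥ n₀,
      c * (n : ℝ) ^ (2 / 3 : ℝ) ≤ sampleSize p n ∧
      (sampleSize p n : ℝ) ≤ C * (n : ℝ) ^ (2 / 3 : ℝ) := by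
  set A : ℝ := 32 / p with hA
  have hA32 : 32 ≤ A := by rw [hA, le_div_iff₀ hp]; nlinarith
  refine ⟨1 - p, A + 4, by linarith, max 32 ⌈(2 * A) ^ 3⌉₊, fun n hn => ?_⟩
  have hn32 : 32 ≤ n := le_trans (le_max_left _ _) hn
  have hn3 : (2 * A) ^ 3 ≤ n := (Nat.le_ceil _).trans (by exact_mod_cast le_trans (le_max_right _ _) hn)
  have hn0 : (32 : ℝ) ≤ n := by exact_mod_cast hn32
  have hnpos : (0 : ℝ) < n := by linarith
  set x : ℝ := (n : ℝ) ^ (2 / 3 : ℝ) with hx
  have hx3 : x ^ 3 = (n : ℝ) ^ 2 := by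
    rw [hx, ← Real.rpow_natCast, ← Real.rpow_mul hnpos.le, ← Real.rpow_natCast]
    norm_num
  have hxpos : 0 < x := Real.rpow_pos_of_pos hnpos _
  have hx1 : 1 ≤ x := Real.one_le_rpow (by linarith) (by norm_num)
  -- `A x ≤ n / 2`
  have hAx : A * x ≤ n / 2 := by
    have h1 : (2 * (A * x)) ^ 3 ≤ (n : ℝ) ^ 3 := by
      have : (2 * (A * x)) ^ 3 = (2 * A) ^ 3 * x ^ 3 := by ring
      rw [this, hx3]
      nlinarith [mul_le_mul_of_nonneg_right hn3 (sq_nonneg (n : ℝ))]
    have h2 := le_of_pow_le_pow_left₀ (by norm_num : (3 : ℕ) ≠ 0) hnpos.le h1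
    linarith
  -- the upper bound
  set s : ℕ := ⌈A * x⌉₊ + 3 with hs
  have hceil : A * x ≤ (⌈A * x⌉₊ : ℝ) := Nat.le_ceil _
  have hceil' : (⌈A * x⌉₊ : ℝ) < A * x + 1 := Nat.ceil_lt_add_one (by positivity)
  have hsr : (s : ℝ) = (⌈A * x⌉₊ : ℝ) + 3 := by rw [hs]; push_cast; ring
  have hsn : s ≤ n := by
    have : (s : ℝ) ≤ n := by rw [hsr]; linarith
    exact_mod_cast this
  have hmem : s ∈ {s | s ≤ n ∧ ∀ S : Finset (ℝ × ℝ), General S → S.card = n → Far (1 / 4) S →
      acc S s ≤ p} := by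
    refine ⟨hsn, fun S hS hSn hF => ?_⟩
    have h1 := acc_le hS hF (by omega) (s := s) (by omega) (by omega)
    rw [hSn] at h1
    have hcast1 : ((n - 1 : ℕ) : ℝ) = n - 1 := by
      rw [Nat.cast_sub (by omega)]; simp
    have hcast2 : ((s - 1 : ℕ) : ℝ) = s - 1 := by
      rw [Nat.cast_sub (by omega)]; simp
    have h2 := (rho_three (n - 1) (s - 1) (by omega) (by omega) (by omega)).1
    rw [hcast1, hcast2] at h2
    have h3 : (A * x / n) ^ 3 ≤ ((s : ℝ) - 1 - 2) ^ 3 / (n - 1) ^ 3 := by
      rw [div_pow]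
      have h4 : (0 : ℝ) < n - 1 := by linarith
      have h5 : (A * x) ^ 3 ≤ ((s : ℝ) - 1 - 2) ^ 3 :=
        pow_le_pow_left₀ (by positivity) (by rw [hsr]; linarith) 3
      have h6 : ((n : ℝ) - 1) ^ 3 ≤ (n : ℝ) ^ 3 := pow_le_pow_left₀ h4.le (by linarith) 3
      exact div_le_div₀ (le_trans (by positivity) h5) h5 (by positivity) h6
    rw [← div_pow] at h3
    have h4 : (A * x / n) ^ 3 ≤ rho (n - 1) (s - 1) 3 := h3.trans h2
    have h5 : (A * x / n) ^ 3 = A ^ 3 / n := by
      rw [div_pow, mul_pow, hx3]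
      field_simp
    rw [h5] at h4
    have h6 : 1 / p ≤ ((n : ℝ) / 16 - 1) * rho (n - 1) (s - 1) 3 := by
      have h7 : (n : ℝ) / 32 ≤ (n : ℝ) / 16 - 1 := by linarith
      have h8 : (n : ℝ) / 32 * (A ^ 3 / n) ≤ ((n : ℝ) / 16 - 1) * rho (n - 1) (s - 1) 3 :=
        mul_le_mul h7 h4 (by positivity) (by linarith)
      have h9 : (n : ℝ) / 32 * (A ^ 3 / n) = A ^ 3 / 32 := by
        field_simp
      have h10 : 1 / p ≤ A ^ 3 / 32 := by
        have : A = 32 / p := hA
        have h11 : 1 / p = A / 32 := by rw [this]; ring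
        rw [h11]
        have : A ≤ A ^ 3 := le_self_pow₀ (by linarith) (by norm_num)
        linarith
      linarith
    have hacc : 0 ≤ acc S s := by unfold acc; positivity
    have h7 : acc S s * (1 / p) ≤ 1 := (mul_le_mul_of_nonneg_left h6 hacc).trans h1
    rw [mul_one_div, div_le_one hp] at h7
    exact h7
  have hle : sampleSize p n ≤ s := Nat.sInf_le hmem
  constructor
  · -- the lower bound
    have hin : sampleSize p n ∈ {s | s ≤ n ∧ ∀ S : Finset (ℝ × ℝ), General S → S.card = n →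
        Far (1 / 4) S → acc S s ≤ p} := Nat.sInf_mem ⟨s, hmem⟩
    set k := sampleSize p n with hk
    by_contra hcon
    push Not at hcon
    have h1 := hin.2 (saw n) (general_saw n) (card_saw n) (far_saw (by omega))
    have h2 := acc_saw (n := n) (s := k) hin.1
    have h3 : ((n / 3 : ℕ) : ℝ) * rho n k 3 < 1 - p := by
      rcases lt_or_ge k 3 with hk3 | hk3
      · have : rho n k 3 = 0 := by
          rw [rho, Nat.descFactorial_eq_zero_iff_lt.2 hk3]
          simp
        rw [this, mul_zero]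
        linarith
      · have h4 := (rho_three n k (by omega) (by omega) hin.1).2
        have h5 : ((n / 3 : ℕ) : ℝ) ≤ n / 3 := Nat.cast_div_le
        have h6 : ((k : ℝ) / n) ^ 3 ≤ ((1 - p) * x / n) ^ 3 := by
          refine pow_le_pow_left₀ (by positivity) ?_ 3
          exact div_le_div_of_nonneg_right hcon.le hnpos.le
        have h7 : ((1 - p) * x / n) ^ 3 = (1 - p) ^ 3 / n := by
          rw [div_pow, mul_pow, hx3]
          field_simp
        have h8 : ((n / 3 : ℕ) : ℝ) * rho n k 3 ≤ n / 3 * ((1 - p) ^ 3 / n) := by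
          refine mul_le_mul h5 ?_ (rho_nonneg _ _ _) (by positivity)
          rw [← h7]
          exact h4.trans h6
        have h9 : (n : ℝ) / 3 * ((1 - p) ^ 3 / n) = (1 - p) ^ 3 / 3 := by field_simp
        have h10 : (1 - p) ^ 3 ≤ 1 - p := by nlinarith [sq_nonneg (1 - p)]
        linarith
    linarith
  · have h1 : ((sampleSize p n : ℕ) : ℝ) ≤ s := by exact_mod_cast hle
    rw [hsr] at h1
    nlinarith

end Pool.Agent.Results.MP_e76d88_lc.TwoThirds
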